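import Pool.Agent.W142.TF.Stm4

set_option autoImplicit false
open Filter Topology Finset
open scoped BoundedContinuousFunction

/-! Project T4: the version of project TF with four points (one half instead of two fifths). -/

namespace Pool.Agent.W142.T4

open Pool.Agent.W634.BQ Pool.Agent.W505.BQ Pool.Agent.W27.FB Pool.Agent.W142.TF

/-- few bad residues -/
def S_loc4 : Prop := ∀ (p l : ℕ), p.Prime → 4 * l + 1 ≤ p → ∀ η : ℝ, 0 < η → (1 / 2 - 2 * η) * p ≤ 2 * l →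
  ∀ Φ Ψ : ℕ → ℕ → ℤ → ℝ, (∀ i j z, 0 ≤ Ψ i j z ∧ Ψ i j z ≤ 1) →
  (∀ i j : ℕ, i < j → j < 4 → (∀ z : ℕ, z < p → |Ψ i j z - Ψ i j ((z : ℤ) - p)| ≤ η) ∧
    (1 / 2 + 6 * η) * p ≤ ∑ z ∈ range p, Ψ i j z ∧
    ∑ z ∈ range p, ((Φ i j z - Ψ i j z) ^ 2 + (Φ i j ((z : ℤ) - p) - Ψ i j ((z : ℤ) - p)) ^ 2) ≤ η ^ 3 * p) →
  ∃ z : ℕ → ℕ, (∀ j, z j < p) ∧ ∀ i j : ℕ, i < j → j < 4 → η < Φ i j ((z j : ℤ) - z i)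

/-- lower bound for the iterated mean of the almost periodic configuration -/
def S_low4 : Prop := ∀ (m : ℕ → ((ℤ →ᵇ ℝ) →ₗ[ℝ] ℝ)), (∀ j, IsMean (m j)) → ∀ (P : ℕ → (ℤ →ᵇ ℝ)) (q S : ℕ → ℕ)
  (c : ℕ → ℕ → ℕ) (η : ℝ), 0 < η →
  (∀ j < 4, (∀ x, 0 ≤ P j x ∧ P j x ≤ 1) ∧ Tor (P j) (q j) ∧ 1 ≤ q j ∧ 1 ≤ S j ∧ q j ∣ S j) →
  (∀ i j, i < j → j < 4 → q j ∣ c j i ∧ S j = c j i * S i) →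
  ∃ c₀ : ℝ, 0 < c₀ ∧ ∀ (P' : ℕ → (ℤ →ᵇ ℝ)) (r : ℕ → ℤ), (∀ j < 4, ∀ x, 0 ≤ P' j x ∧ P' j x ≤ 1) →
    (∀ j, 1 ≤ j → j < 4 → (1 / 2 + 8 * η) / q j ≤ m j (cls (q j) (r j) * P j) ∧
      m j (cls (q j) (r j) * ((P' j - P j) * (P' j - P j))) ≤ η ^ 3 / 24 / q j) →
    c₀ ≤ It m 4 (FP (fun j => cls (q j) (r j)) P' c 4)

/-- four points: sets of which arbitrarily divisible dilates have upper Banach density above `1/2` -/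
def S_mai4 : Prop := ∀ (U : Set ℤ) (ε : ℝ), 0 < ε →
  (∀ M : ℕ, 1 ≤ M → ∃ Q : ℕ, 1 ≤ Q ∧ M ∣ Q ∧ ∀ L₀ : ℕ, ∃ L : ℕ, L₀ ≤ L ∧ ∃ u : ℤ,
    (1 / 2 + ε) * L ≤ ({n : ℕ | n < L ∧ (Q : ℤ) * (u + (n : ℤ)) ∈ U}.ncard : ℝ)) →
  ∀ K : ℕ, ∃ (Q : ℕ → ℕ) (A : ℕ → ℕ → ℤ), (∀ j, 1 ≤ Q j) ∧ (∀ j, Set.InjOn (A j) {k | k < K}) ∧
    ∀ i j, i < j → j < 4 → ∀ k k', k < K → k' < K → (Q j : ℤ) * A j k - (Q i : ℤ) * A i k' ∈ U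

end Pool.Agent.W142.T4
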