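import Pool.Agent.W142.TF.MaiF
import Pool.Agent.W142.T4.Stm

set_option autoImplicit false
open Filter Topology Finset
open scoped BoundedContinuousFunction

/-! Project T4: sets of which arbitrarily divisible dilates have upper Banach density above `1/2`. -/

namespace Pool.Agent.W142.T4

open Pool.Agent.W634.BQ Pool.Agent.W505.BQ Pool.Agent.W27.FB Pool.Agent.W142.TF

theorem mai4 (hban : S_ban) (happr : S_appr) (hcls : S_cls) (hlev : S_lev) (hlow : S_low4) (hcmp : S_cmp)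
    (hblo : S_blo) : S_mai4 := by
  intro U ε hε H K
  classical
  have hε1 : ε ≤ 1 / 2 := by
    obtain ⟨Q, _, _, hQ⟩ := H 1 le_rfl
    have := Den.le_one (U := U) (ρ := 1 / 2 + ε) (Q := Q) hQ
    linarith
  set η : ℝ := ε / 32 with hη
  have hη0 : 0 < η := by positivity
  have hη1 : η ≤ 1 / 64 := by rw [hη]; linarith
  set κ : ℝ := η ^ 3 / 24 with hκ
  have hκ0 : 0 < κ := by positivity
  have hκ1 : κ ≤ 1 := by
    rw [hκ]
    have : η ^ 3 ≤ 1 := pow_le_one₀ hη0.le (by linarith)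
    linarith
  set εc : ℝ := κ * η with hεc
  have hεc0 : 0 < εc := by positivity
  obtain ⟨M, PP, qq, hdat⟩ := level_data hban happr hcls U (1 / 2 + ε) εc hεc0
  obtain ⟨Qf, c, S, hQ1, hc1, hcQ, hS1, hcS⟩ := levels 4 (Den U (1 / 2 + ε))
    (fun N hN => by obtain ⟨Q, h1, h2, h3⟩ := H N hN; exact ⟨Q, h3, h1, h2⟩) qq (fun Q hQ => (hdat Q hQ).2.2.2.2.1)
  have hM : ∀ j, IsMean (M (Qf j)) := fun j => (hdat _ (hQ1 j).1).1
  have hE : ∀ j, Extr (M (Qf j)) := fun j => (hdat _ (hQ1 j).1).2.1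
  have hMd : ∀ j, 1 / 2 + ε ≤ M (Qf j) (ind {k : ℤ | (Qf j : ℤ) * k ∈ U}) := fun j => (hdat _ (hQ1 j).1).2.2.1
  have hA : ∀ j, App (M (Qf j)) {k : ℤ | (Qf j : ℤ) * k ∈ U} (PP (Qf j)) εc := fun j => (hdat _ (hQ1 j).1).2.2.2.1
  have hq1 : ∀ j, 1 ≤ qq (Qf j) := fun j => (hdat _ (hQ1 j).1).2.2.2.2.1
  have hT : ∀ j, Tor (PP (Qf j)) (qq (Qf j)) := fun j => (hdat _ (hQ1 j).1).2.2.2.2.2
  obtain ⟨c₀, hc₀, hlowa⟩ := hlow (fun j => M (Qf j)) hM (fun j => PP (Qf j)) (fun j => qq (Qf j)) S c η hη0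
    (fun j hj => ⟨(hA j).2.1, hT j, hq1 j, (hS1 j hj).1, (hS1 j hj).2⟩) hcS
  -- the fine approximation
  set ε' : ℝ := min εc (c₀ / 100) with hε'
  have hε'0 : 0 < ε' := lt_min hεc0 (by positivity)
  have hfine : ∀ j : ℕ, ∃ (P' : ℤ →ᵇ ℝ) (r : ℤ), App (M (Qf j)) {k : ℤ | (Qf j : ℤ) * k ∈ U} P' ε' ∧
      (1 / 2 + 8 * η) / qq (Qf j) ≤ M (Qf j) (cls (qq (Qf j)) r * PP (Qf j)) ∧
      M (Qf j) (cls (qq (Qf j)) r * ((P' - PP (Qf j)) * (P' - PP (Qf j)))) ≤ κ / qq (Qf j) := by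
    intro j
    obtain ⟨P', h1, h2, h3⟩ := happr (M (Qf j)) (hM _) (hE _) {k : ℤ | (Qf j : ℤ) * k ∈ U} ε' hε'0
    have hg : 1 / 2 + 8 * η ≤ 1 / 2 + ε - εc - (εc + ε') / κ := by
      have e1 : (εc + ε') / κ ≤ 2 * η := by
        rw [div_le_iff₀ hκ0]
        have : ε' ≤ εc := min_le_left _ _
        have : εc = κ * η := hεc
        nlinarith
      have e2 : εc ≤ η := by rw [hεc]; nlinarith
      have e3 : ε = 32 * η := by rw [hη]; ring
      linarith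
    obtain ⟨r, hr1, hr2⟩ := hlev (M (Qf j)) (hM _) {k : ℤ | (Qf j : ℤ) * k ∈ U} (PP (Qf j)) P' εc ε' (1 / 2 + ε) κ hκ0
      (hA _) ⟨h1, h2, h3⟩ (hMd _) (by linarith) (qq (Qf j)) (hq1 _)
    refine ⟨P', r, ⟨h1, h2, h3⟩, le_trans ?_ hr1, hr2⟩
    have : (0 : ℝ) < qq (Qf j) := by exact_mod_cast hq1 j
    exact div_le_div_of_nonneg_right hg this.le
  choose P' r hA' hr1 hr2 using hfine
  have hlow5 := hlowa P' r (fun j _ => (hA' j).2.1) (fun j _ _ => ⟨hr1 j, hr2 j⟩)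
  have hcmp5 := hcmp (fun j => M (Qf j)) hM (fun j => {k : ℤ | (Qf j : ℤ) * k ∈ U}) P' ε' hε'0 hA' c hc1 4
    (fun j => cls (qq (Qf j)) (r j)) (fun j => hcls.1 _ _ (hq1 _))
  have hFV : 0 < It (fun j => M (Qf j)) 4
      (FV (fun j => cls (qq (Qf j)) (r j)) (fun j => {k : ℤ | (Qf j : ℤ) * k ∈ U}) c 4) := by
    have h1 := (abs_le.1 hcmp5).1
    have h2 : ε' ≤ c₀ / 100 := min_le_right _ _
    push_cast at h1
    nlinarith
  have hcls01 : ∀ (j : ℕ) (n : ℤ), 0 ≤ cls (qq (Qf j)) (r j) n ∧ cls (qq (Qf j)) (r j) n ≤ 1 := fun j n => ind01 _ _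
  have hpos : 0 < It (fun j => M (Qf j)) 4
      (fun a => if (∀ i j, i < j → j < 4 → a j - c j i * a i ∈ {k : ℤ | (Qf j : ℤ) * k ∈ U}) then 1 else 0) := by
    refine lt_of_lt_of_le hFV (It_mono (fun j => hM _) 4 (C := 1) (D := 1)
      (fun a => abs01 (FV_01 _ _ _ hcls01 4 a)) (fun a => ?_) fun a => ?_)
    · split_ifs <;> simp
    · split_ifs with h
      · exact (FV_01 _ _ _ hcls01 4 a).2
      · push Not at h
        obtain ⟨i, j, hij, hj, hn⟩ := h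
        refine le_of_eq (prod_eq_zero (mem_range.2 hj) ?_)
        rw [prod_eq_zero (mem_range.2 hij) (ind_notMem hn), mul_zero]
  obtain ⟨A, hinj, hAE⟩ := hblo (fun j => M (Qf j)) hM 4 K _ hpos
  refine ⟨Qf, A, fun j => (hQ1 j).2, hinj, ?_⟩
  intro i j hij hj k k' hk hk'
  have h := hAE (fun l => if l = j then k else k') (fun l _ => by
    split_ifs <;> assumption) i j hij hj
  have hi : i < 4 := hij.trans hj
  simp only [hj, hi, if_true, hij.ne, if_false] at h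
  have h' : (Qf j : ℤ) * (A j k - c j i * A i k') ∈ U := h
  rw [mul_sub, ← mul_assoc, ← Nat.cast_mul, hcQ i j hij hj] at h'
  exact h'

end Pool.Agent.W142.T4
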