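import Pool.Agent.W142.TF.All
import Pool.Agent.W142.T4.Loc
import Pool.Agent.W142.T4.Low
import Pool.Agent.W142.T4.Mai

set_option autoImplicit false

/-! Project T4: assembly. -/

namespace Pool.Agent.W142.T4

open Pool.Agent.W142.TF

theorem s_low4 : S_low4 := low4 s_per (loc4 (Pool.Agent.W140.TF.nul Pool.Agent.W284.TF.s_dys)) Pool.Agent.W681.TF.clss

theorem s_mai4 : S_mai4 := mai4 Pool.Agent.W756.TF.ban s_appr Pool.Agent.W681.TF.clss Pool.Agent.W681.TF.lev
  s_low4 s_cmp Pool.Agent.W597.TF.blo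

end Pool.Agent.W142.T4
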